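import Pool.Agent.H.MP_6bd959_co.A

set_option autoImplicit false
namespace Pool.Agent.Results.MP_6bd959_co.Bounded
open Pool.Agent.H.MP_6bd959_co Set

def Decomp (P S : Set (EuclideanSpace ℝ (Fin 2))) (m : ℕ) : Prop :=
  ∀ (ι : Type) (c : ι → EuclideanSpace ℝ (Fin 2)),
    (∀ x ∈ S, (m : ℕ∞) ≤ {i | x ∈ (fun p => p + c i) '' P}.encard) →
    ∃ A : Set ι, (∀ x ∈ S, ∃ i ∈ A, x ∈ (fun p => p + c i) '' P) ∧
      ∀ x ∈ S, ∃ i ∉ A, x ∈ (fun p => p + c i) '' P

theorem result : ∃ P : Set (EuclideanSpace ℝ (Fin 2)), Bornology.IsBounded P ∧ P.Countable ∧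
    (∃ m, 2 ≤ m ∧ Decomp P univ m) ∧ ¬ ∃ m, 2 ≤ m ∧ ∀ S, Decomp P S m := by
  have hm : ∀ (P : Set Pl) (x t : Pl), x ∈ (fun p => p + t) '' P ↔ x - t ∈ P := by
    intro P x t
    constructor
    · rintro ⟨p, hp, rfl⟩; simpa using hp
    · intro h; exact ⟨x - t, h, by simp⟩
  refine ⟨g '' P0, ?_, (to_countable _).image _, ⟨2, le_rfl, ?_⟩, ?_⟩
  · refine (Metric.isBounded_closedBall (x := (0 : Pl)) (r := 1)).subset ?_
    rintro _ ⟨u, ⟨h1, h2, -⟩, rfl⟩
    simp only [g, AddMonoidHom.mk'_apply, mem_closedBall_zero_iff, PiLp.norm_single,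
      Real.norm_eq_abs]
    rw [abs_of_pos h1]; exact h2.le
  · intro ι c h
    simp only [hm] at h ⊢
    obtain ⟨A, hA⟩ := plane c (fun x => by
      have := h x (mem_univ x)
      exact one_lt_encard_iff_nontrivial.mp (lt_of_lt_of_le (by norm_num) this))
    exact ⟨A, fun x _ => (hA x).1, fun x _ => (hA x).2⟩
  · rintro ⟨m, -, h⟩
    have key : ∀ (e : Finset ℕ) (i : ℕ), g (1 / 2 ^ (Encodable.encode e + 1), 0) -
        g (-(1 / 3 ^ (i + 1)), 0) ∈ g '' P0 ↔ i ∈ e := by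
      intro e i
      rw [← map_sub, g_inj.mem_set_image, ← mem_P0 e i]
      simp
    obtain ⟨A, hA, hB⟩ := h {x | ∃ e : Finset ℕ, e.card = m ∧ x = g (1 / 2 ^ (Encodable.encode e + 1), 0)}
      ℕ (fun i => g (-(1 / 3 ^ (i + 1)), 0)) (by
        rintro _ ⟨e, he, rfl⟩
        simp only [hm, key]
        rw [← he]
        exact le_of_eq (by simp))
    simp only [hm] at hA hB
    have hor : A.Infinite ∨ Aᶜ.Infinite := by
      rw [← infinite_union, union_compl_self]; exact infinite_univ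
    rcases hor with hi | hi
    · obtain ⟨e, he, hc⟩ := hi.exists_subset_card_eq m
      obtain ⟨i, h1, h2⟩ := hB _ ⟨e, hc, rfl⟩
      exact h1 (he ((key e i).mp h2))
    · obtain ⟨e, he, hc⟩ := hi.exists_subset_card_eq m
      obtain ⟨i, h1, h2⟩ := hA _ ⟨e, hc, rfl⟩
      exact he ((key e i).mp h2) h1

end Pool.Agent.Results.MP_6bd959_co.Bounded
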